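import Pool.Agent.V1132.TreeMain

/-!
# Every `α ∈ [0, 1]` is the fixed-point proportion of a two-generated abelian group
-/

set_option autoImplicit false

namespace Pool.Agent.Results.MP_80cb54_al.AllValues

open Pool.Agent.V1132.RootedTree

/-- **Theorem.** Let `d ≥ 2` and `α ∈ [0, 1]`. There are two commuting automorphisms `a`, `b` of
the `d`-regular rooted tree such that the group they generate has fixed-point proportion `α`. -/
theorem result (d : ℕ) (hd : 2 ≤ d) (α : ℝ) (hα : α ∈ Set.Icc (0 : ℝ) 1) :
    ∃ a b : TreeAut d, a * b = b * a ∧ HasFPP (Subgroup.closure {a, b}) α :=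
  Pool.Agent.V1132.TreeMain.main d hd α hα.1 hα.2

end Pool.Agent.Results.MP_80cb54_al.AllValues
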